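import Mathlib

namespace Pool.Agent.Results.MP_3eb7f1_co.Yes

open Finset

/-- The number of unordered pairs of distinct vertices whose degrees differ by less than `k`. -/
def close {n : ℕ} (G : SimpleGraph (Fin n)) [DecidableRel G.Adj] (k : ℕ) : ℕ :=
  (univ.filter fun p : Fin n × Fin n =>
    p.1 < p.2 ∧ |(G.degree p.1 : ℤ) - (G.degree p.2 : ℤ)| < k).card

/-- The conjectured minimum, with `q = ⌈n/k⌉` and `t = n - k (q - 1)`. -/
def f0 (n k : ℕ) : ℕ :=
  (⌈(n : ℚ) / k⌉₊ - 2) * k.choose 2 + (k + 1).choose 2 + (n - k * (⌈(n : ℚ) / k⌉₊ - 1) - 1).choose 2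

lemma path (x : ℕ → ℤ) (hx : ∀ j, 0 ≤ x j) (k τ : ℤ) (hτ : τ ≤ k) (h0 : x 0 ≤ τ) :
    ∀ i : ℕ, (∀ y, -(i + 1) * (k * (k + 1)) ≤
      ∑ j ∈ range (2 * i), (x j ^ 2 + 2 * (x j * x (j + 1)) - (2 * k + 1) * x j) +
        ((x (2 * i) + y) ^ 2 - (2 * k + 1) * (x (2 * i) + y)) ∨ y < 0) ∧
      ∀ y, 0 ≤ y → y ≤ τ → (i = 0 → y = 0) → τ ^ 2 - (2 * k + 1) * τ - i * (k * (k + 1)) ≤
      ∑ j ∈ range (2 * i), (x j ^ 2 + 2 * (x j * x (j + 1)) - (2 * k + 1) * x j) +
        ((x (2 * i) + y) ^ 2 - (2 * k + 1) * (x (2 * i) + y)) := by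
  have A : ∀ y : ℤ, -(k * (k + 1)) ≤ y ^ 2 - (2 * k + 1) * y := fun y => by
    rcases le_or_gt y k with e | e <;> nlinarith
  have B : ∀ y : ℤ, y ≤ τ → τ ^ 2 - (2 * k + 1) * τ ≤ y ^ 2 - (2 * k + 1) * y := fun y h => by
    nlinarith
  intro i
  induction i with
  | zero =>
    refine ⟨fun y => Or.inl ?_, fun y _ _ h => ?_⟩
    · simpa using A (x 0 + y)
    · simpa [h rfl] using B (x 0) h0
  | succ i ih =>
    have h1 := (ih.1 (x (2 * i + 1) + x (2 * i + 2))).resolve_right
      (not_lt.mpr (add_nonneg (hx _) (hx _)))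
    have h2 := ih.2 0 le_rfl ((hx 0).trans h0) fun _ => rfl
    have h3 := hx (2 * i)
    have h4 := hx (2 * i + 1)
    have h5 := hx (2 * i + 2)
    rw [show 2 * (i + 1) = 2 * i + 1 + 1 by ring, sum_range_succ, sum_range_succ]
    simp only [add_assoc (2 * i) 1 1, one_add_one_eq_two]
    push_cast
    refine ⟨fun y => (lt_or_ge y 0).elim Or.inr fun hy => Or.inl ?_, fun y hy h6 _ => ?_⟩
    · rcases le_total (x (2 * i)) y with e | e
      · nlinarith [A y, mul_nonneg h5 (sub_nonneg.mpr e)]
      · nlinarith [A τ, A (x (2 * i + 1) + x (2 * i + 2) + y), mul_nonneg h4 (sub_nonneg.mpr e)]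
    · rcases le_total (x (2 * i)) y with e | e
      · nlinarith [B y h6, mul_nonneg h5 (sub_nonneg.mpr e)]
      · nlinarith [A (x (2 * i + 1) + x (2 * i + 2) + y), mul_nonneg h4 (sub_nonneg.mpr e)]

variable {n : ℕ} (G : SimpleGraph (Fin n)) [DecidableRel G.Adj]

lemma spread {A B : Finset (Fin n)} {t D : ℕ} (ht : 0 < t) (hn : t < n) (hA : A.card = t)
    (hB : B.card = t) (h1 : ∀ v ∈ A, D + (n - t) ≤ G.degree v) (h2 : ∀ v ∈ B, G.degree v ≤ D) :
    False := by
  have h3 : ∀ v ∈ A, D + 1 ≤ ∑ u ∈ B, if G.Adj v u then 1 else 0 := by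
    intro v hv
    have hv2 : v ∉ B := fun e => by have := h1 v hv; have := h2 v e; omega
    have e1 := card_filter_add_card_filter_not (s := G.neighborFinset v) (· ∈ B)
    have e2 : (filter (· ∉ B) (G.neighborFinset v)).card ≤ (univ \ insert v B).card :=
      card_le_card fun u hu => by
        simp only [mem_filter, SimpleGraph.mem_neighborFinset] at hu
        simp [hu.2, hu.1.ne']
    rw [card_univ_sdiff, card_insert_of_notMem hv2, Fintype.card_fin, hB] at e2
    have e3 : filter (· ∈ B) (G.neighborFinset v) = filter (G.Adj v) B := by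
      ext u
      simp [and_comm]
    rw [← card_filter, ← e3]
    have := h1 v hv
    rw [SimpleGraph.card_neighborFinset_eq_degree] at e1
    omega
  have h4 := card_nsmul_le_sum A _ _ h3
  rw [sum_comm] at h4
  have h5 := sum_le_card_nsmul B (fun u => ∑ v ∈ A, if G.Adj v u then 1 else 0) D fun u hu => by
    rw [← card_filter]
    refine le_trans (card_le_card fun v hv => ?_) (h2 u hu)
    exact (G.mem_neighborFinset u v).mpr (mem_filter.mp hv).2.symm
  have := h4.trans h5
  rw [hA, hB, smul_eq_mul, smul_eq_mul] at this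
  nlinarith

lemma count (k : ℕ) (hk : 0 < k) : 2 * (close G k : ℤ) + n =
    ∑ u : Fin n, ∑ v : Fin n, if |(G.degree u : ℤ) - (G.degree v : ℤ)| < k then 1 else 0 := by
  have h1 : (close G k : ℤ) = ∑ u : Fin n, ∑ v : Fin n,
      if u < v ∧ |(G.degree u : ℤ) - (G.degree v : ℤ)| < k then 1 else 0 := by
    rw [close, card_filter, ← univ_product_univ, sum_product]
    push_cast
    rfl
  have h2 : (n : ℤ) = ∑ u : Fin n, ∑ v : Fin n, if u = v then 1 else 0 := by simp
  have h3 := h1.trans sum_comm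
  rw [two_mul]
  refine (congrArg₂ (· + ·) (congrArg₂ (· + ·) h1 h3) h2).trans ?_
  simp only [← sum_add_distrib]
  refine sum_congr rfl fun u _ => sum_congr rfl fun v _ => ?_
  rcases lt_trichotomy u v with e | rfl | e
  · simp [e, e.ne, e.not_gt]
  · simp [hk]
  · simp [e, e.ne', e.not_gt, abs_sub_comm]

/-- Every graph on `n > k ≥ 1` vertices has at least `f0 n k` degree-close pairs. -/
theorem result (n k : ℕ) (hk : 1 ≤ k) (hn : k < n) (G : SimpleGraph (Fin n))
    [DecidableRel G.Adj] : f0 n k ≤ close G k := by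
  obtain ⟨q, t, h1, h2, h3⟩ : ∃ q t, n = k * (q + 1) + t + 1 ∧ t < k ∧
      ⌈(n : ℚ) / k⌉₊ = q + 2 := by
    have e1 := Nat.div_add_mod (n - 1) k
    have e2 := Nat.mod_lt (n - 1) hk
    obtain ⟨q, hq⟩ : ∃ q, (n - 1) / k = q + 1 :=
      Nat.exists_eq_add_of_le' (Nat.div_pos (by omega : k ≤ n - 1) hk)
    rw [hq] at e1
    refine ⟨q, (n - 1) % k, by omega, e2, ?_⟩
    have e3 : (0 : ℚ) < k := by exact_mod_cast hk
    rw [Nat.ceil_eq_iff (by omega), lt_div_iff₀ e3, div_le_iff₀ e3]
    constructor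
    · exact_mod_cast (by rw [show q + 2 - 1 = q + 1 by omega, mul_comm]; omega)
    · exact_mod_cast (by rw [show (q + 2) * k = k * (q + 1) + k by ring]; omega)
  obtain ⟨D, hD1, hD2, hD3⟩ : ∃ D ≤ k, (univ.filter fun v => G.degree v < D).card ≤ t ∧
      (D = k ∨ (univ.filter fun v => D + k * (q + 1) ≤ G.degree v).card ≤ t) := by
    let D := Nat.findGreatest (fun D => (univ.filter fun v => G.degree v < D).card ≤ t) k
    have e1 : D ≤ k := Nat.findGreatest_le k
    refine ⟨D, e1, Nat.findGreatest_spec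
      (P := fun D => (univ.filter fun v => G.degree v < D).card ≤ t) (Nat.zero_le k) (by simp), ?_⟩
    by_contra e
    push Not at e
    have e2 := not_le.mp (Nat.findGreatest_is_greatest
      (P := fun D => (univ.filter fun v => G.degree v < D).card ≤ t) (Nat.lt_succ_self D)
      (by omega : D + 1 ≤ k))
    obtain ⟨A, a1, a2⟩ := exists_subset_card_eq (Nat.succ_le_of_lt e.2)
    obtain ⟨B, b1, b2⟩ := exists_subset_card_eq (Nat.succ_le_of_lt e2)
    refine spread G (D := D) (Nat.succ_pos t) (by omega) a2 b2 (fun v hv => ?_) fun v hv => ?_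
    · have := (mem_filter.mp (a1 hv)).2
      omega
    · have := (mem_filter.mp (b1 hv)).2
      omega
  let β : Fin n → ℕ := fun v => 2 * (G.degree v / k) + if G.degree v % k < D then 0 else 1
  let x : ℕ → ℤ := fun j => ∑ v : Fin n, if β v = j then 1 else 0
  have hx : ∀ j, 0 ≤ x j := fun j => sum_nonneg fun _ _ => by positivity
  have hβ : ∀ v, β v < 2 * (q + 1) + 1 + 1 := fun v => by
    have := G.degree_lt_card_verts v
    rw [Fintype.card_fin] at this
    have : G.degree v / k < q + 2 := (Nat.div_lt_iff_lt_mul hk).mpr (by nlinarith)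
    simp only [β]
    split_ifs <;> omega
  have c1 : ∀ j (P : Fin n → Prop) [DecidablePred P], (∀ v, β v = j → P v) →
      (univ.filter P).card ≤ t → x j ≤ t := by
    intro j P _ h e
    refine le_trans ?_ (Int.ofNat_le.mpr e)
    rw [card_filter]
    push_cast
    exact sum_le_sum fun v _ => by by_cases e : β v = j <;> simp [e, h v]; positivity
  have c2 : x 0 ≤ t := c1 _ _ (fun v hv => by
    have := Nat.div_add_mod (G.degree v) k
    simp only [β] at hv
    split_ifs at hv
    rw [show G.degree v / k = 0 by omega] at this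
    omega) hD2
  have c3 : x (2 * (q + 1) + 1) ≤ t := by
    rcases hD3 with e | e
    · refine c1 _ (fun _ => False) (fun v hv => ?_) (by simp)
      have := Nat.mod_lt (G.degree v) hk
      simp only [β] at hv
      split_ifs at hv <;> omega
    · refine c1 _ _ (fun v hv => ?_) e
      have := Nat.div_add_mod (G.degree v) k
      simp only [β] at hv
      split_ifs at hv
      · omega
      · rw [show G.degree v / k = q + 1 by omega] at this
        omega
  have c4 := (path x hx k t (by omega) c2 (q + 1)).2 _ (hx _) c3 (by omega)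
  have c5 : ∑ j ∈ range (2 * (q + 1) + 1 + 1), x j = n := by
    simp only [x]
    rw [sum_comm]
    simp [hβ]
  have c6 : ∑ j ∈ range (2 * (q + 1) + 1 + 1), (x j ^ 2 + 2 * (x j * x (j + 1))) ≤
      2 * (close G k : ℤ) + n := by
    rw [count G k hk]
    have : ∀ j, x j ^ 2 + 2 * (x j * x (j + 1)) = ∑ u : Fin n, ∑ v : Fin n,
        (if β u = j then (if β v = j then 1 else 0) + (if β v = j + 1 then 1 else 0) else 0) +
        ∑ u : Fin n, ∑ v : Fin n, if β v = j then (if β u = j + 1 then 1 else 0) else 0 := by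
      intro j
      rw [sum_comm (f := fun u v => if β v = j then (if β u = j + 1 then (1 : ℤ) else 0) else 0)]
      simp only [x, sq, two_mul, sum_mul_sum, ← sum_add_distrib]
      refine sum_congr rfl fun u _ => sum_congr rfl fun v _ => ?_
      by_cases β u = j <;> simp [*, add_assoc]
    simp only [this, ← sum_add_distrib]
    rw [sum_comm]
    refine sum_le_sum fun u _ => ?_
    rw [sum_comm]
    refine sum_le_sum fun v _ => ?_
    rw [sum_add_distrib, sum_ite_eq, sum_ite_eq, if_pos (mem_range.mpr (hβ u)),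
      if_pos (mem_range.mpr (hβ v))]
    have key : ∀ a b : Fin n, β b = β a ∨ β b = β a + 1 →
        |(G.degree a : ℤ) - (G.degree b : ℤ)| < k := by
      intro a b h
      have e1 := Nat.div_add_mod (G.degree a) k
      have e2 := Nat.div_add_mod (G.degree b) k
      have e3 := Nat.mod_lt (G.degree a) hk
      have e4 := Nat.mod_lt (G.degree b) hk
      simp only [β] at h
      rw [abs_lt]
      by_cases e : G.degree b / k = G.degree a / k
      · rw [e] at e2
        omega
      · have e5 : G.degree b / k = G.degree a / k + 1 := by split_ifs at h <;> omega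
        rw [e5, mul_add] at e2
        split_ifs at h <;> omega
    by_cases e : |(G.degree u : ℤ) - (G.degree v : ℤ)| < k
    · rw [if_pos e]
      split_ifs <;> omega
    · have e1 := mt (key u v) e
      have e2 := mt (key v u) (by rwa [abs_sub_comm])
      rw [if_neg e]
      split_ifs <;> omega
  have c7 := mul_nonneg (hx (2 * (q + 1) + 1)) (hx (2 * (q + 1) + 1 + 1))
  rw [sum_range_succ, sum_range_succ] at c5 c6
  rw [sum_sub_distrib, ← mul_sum] at c4
  rw [f0, h3, show n - k * (q + 2 - 1) - 1 = t by rw [show q + 2 - 1 = q + 1 by omega]; omega]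
  have ch : ∀ m : ℕ, 2 * (m.choose 2 : ℤ) = m * (m - 1) := fun m => by
    induction m with
    | zero => simp
    | succ m ih => rw [Nat.choose_succ_succ', Nat.choose_one_right]; push_cast; linarith
  have d1 := ch k
  have d2 := ch (k + 1)
  have d3 := ch t
  zify at h1 ⊢
  rw [show q + 2 - 2 = q by omega]
  push_cast at c4 d2
  nlinarith

end Pool.Agent.Results.MP_3eb7f1_co.Yes
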